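import Pool.Agent.H83.SiteG.FinalB
import Pool.Agent.H83.SiteG.SigmaT
import Pool.Agent.H83.Site.FinalA
import Pool.Agent.H83.Site.PcRange
import Pool.Agent.H83.Site.Transfer

/-!
# Site percolation: the critical density of the matching lattice, and the product of the mean
cluster sizes
-/

set_option autoImplicit false

open MeasureTheory ProbabilityTheory unitInterval Filter Topology
open scoped ENNReal

namespace Pool.Agent.H83.Site

open Pool.Agent.H89.Perc

/-- The event that there is no closed circuit on the first `k` scales. -/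
def noCirc (k : ℕ) : Set Config := {η | ∀ j < k, neg η ∉ CircE (4 ^ (j + 1))}

/-- The sites of the ring at scale `s`. -/
noncomputable def ringE (s : ℕ) : Finset Edge :=
  (eRect (-(2 * s)) (2 * s) s (2 * s) ∪ eRect (-(2 * s)) (2 * s) (-(2 * s)) (-s)) ∪
    (eRect s (2 * s) (-(2 * s)) (2 * s) ∪ eRect (-(2 * s)) (-s) (-(2 * s)) (2 * s))

theorem localOn_CircE_ring (s : ℕ) : LocalOn (ringE s) (CircE s) := by
  rw [circ_eq]
  unfold ringE
  refine LocalOn.inter (LocalOn.inter ((localOn_HC _ _ _ _).mono ?_)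
    ((localOn_HC _ _ _ _).mono ?_)) (LocalOn.inter ((localOn_VC _ _ _ _).mono ?_)
    ((localOn_VC _ _ _ _).mono ?_))
  · exact Finset.subset_union_left.trans Finset.subset_union_left
  · exact Finset.subset_union_right.trans Finset.subset_union_left
  · exact Finset.subset_union_left.trans Finset.subset_union_right
  · exact Finset.subset_union_right.trans Finset.subset_union_right

theorem ring_disjoint {s t : ℕ} (h : 2 * s < t) :
    Disjoint (eRect (-(2 * s)) (2 * s) (-(2 * s)) (2 * s)) (ringE t) := by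
  have h' : 2 * (s : ℤ) < t := by exact_mod_cast h
  unfold ringE
  rw [Finset.disjoint_union_right, Finset.disjoint_union_right, Finset.disjoint_union_right]
  refine ⟨⟨eRect_disjoint_x ?_, eRect_disjoint_x ?_⟩, ⟨eRect_disjoint_x ?_, eRect_disjoint_x ?_⟩⟩
  · exact Or.inr (Or.inr (Or.inl h'))
  · exact Or.inr (Or.inr (Or.inr (by linarith)))
  · exact Or.inl h'
  · exact Or.inr (Or.inl (by linarith))

theorem localOn_noCirc (k : ℕ) :
    LocalOn (eRect (-(2 * (4 ^ k : ℕ))) (2 * (4 ^ k : ℕ)) (-(2 * (4 ^ k : ℕ))) (2 * (4 ^ k : ℕ)))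
      (noCirc k) := by
  intro η η' h hc j hj hn
  refine hc j hj ?_
  have h1 : LocalOn (eRect (-(2 * (4 ^ k : ℕ))) (2 * (4 ^ k : ℕ)) (-(2 * (4 ^ k : ℕ)))
      (2 * (4 ^ k : ℕ))) (CircE (4 ^ (j + 1))) := by
    refine (localOn_CircE (4 ^ (j + 1))).mono ?_
    have h2 : (4 ^ (j + 1) : ℕ) ≤ 4 ^ k := Nat.pow_le_pow_right (by norm_num) hj
    have h3 : ((4 ^ (j + 1) : ℕ) : ℤ) ≤ (4 ^ k : ℕ) := by exact_mod_cast h2
    exact circ_eRect_mono (by linarith) (by linarith) (by linarith) (by linarith)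
  refine h1 _ _ (fun v hv => ?_) hn
  simp only [neg]
  rw [h v hv]

theorem noCirc_succ (k : ℕ) :
    noCirc (k + 1) = noCirc k ∩ {η | neg η ∈ CircE (4 ^ (k + 1))}ᶜ := by
  ext η
  simp only [noCirc, Set.mem_ofPred_eq, Set.mem_inter_iff, Set.mem_compl_iff]
  constructor
  · intro h
    exact ⟨fun j hj => h j (by omega), h k (by omega)⟩
  · rintro ⟨h1, h2⟩ j hj
    rcases Nat.lt_succ_iff_lt_or_eq.1 hj with h3 | h3
    · exact h1 j h3
    · rw [h3]; exact h2

/-- No percolation when the other colour has the box crossing property. -/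
theorem thT_eq_zero_of_BXP {p₀ : I} {r : Bool} (h : BXP (σ p₀) (!r)) : thT p₀ r = 0 := by
  obtain ⟨c, hc, h4⟩ := h 4
  have hc4 : 0 < c ^ 4 := by positivity
  have hstep : ∀ k : ℕ, PT p₀ r (noCirc k) ≤ (1 - c ^ 4) ^ k := by
    intro k
    induction k with
    | zero =>
      rw [pow_zero]
      exact PT_le_one
    | succ k ih =>
      have hs : (1 : ℕ) ≤ 4 ^ (k + 1) := Nat.one_le_pow _ _ (by norm_num)
      have h1 := circ_prob hc h4 le_rfl (s := 4 ^ (k + 1)) hs
      have h2 : PT p₀ r {η | neg η ∈ CircE (4 ^ (k + 1))} =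
          PT (σ p₀) (!r) (CircE (4 ^ (k + 1))) := PT_neg (localOn_CircE (4 ^ (k + 1)))
      have hl : LocalOn (ringE (4 ^ (k + 1))) {η : Config | neg η ∈ CircE (4 ^ (k + 1))} :=
        LocalOn.neg (localOn_CircE_ring (4 ^ (k + 1)))
      have hlc : LocalOn (ringE (4 ^ (k + 1))) {η : Config | neg η ∈ CircE (4 ^ (k + 1))}ᶜ :=
        hl.compl
      have hd : 2 * 4 ^ k < 4 ^ (k + 1) := by
        have : 0 < 4 ^ k := by positivity
        rw [pow_succ]; omega
      rw [noCirc_succ, PT_indep (localOn_noCirc k) hlc (ring_disjoint hd), PT_compl hl, h2, pow_succ]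
      have h3 : 0 ≤ 1 - PT (σ p₀) (!r) (CircE (4 ^ (k + 1))) := by
        have : PT (σ p₀) (!r) (CircE (4 ^ (k + 1))) ≤ 1 := PT_le_one
        linarith
      have h5 : 1 - PT (σ p₀) (!r) (CircE (4 ^ (k + 1))) ≤ 1 - c ^ 4 := by linarith
      exact mul_le_mul ih h5 h3 (le_trans PT_nonneg ih)
  have hle : ∀ k : ℕ, thT p₀ r ≤ (1 - c ^ 4) ^ k := by
    intro k
    refine le_trans (thT_le_ab p₀ r (2 * 4 ^ (k + 1) + 1)) (le_trans (PT_mono ?_) (hstep k))
    intro η hη j hj hn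
    have hs : (1 : ℕ) ≤ 4 ^ (j + 1) := Nat.one_le_pow _ _ (by norm_num)
    have h2 : (4 ^ (j + 1) : ℕ) ≤ 4 ^ (k + 1) := Nat.pow_le_pow_right (by norm_num) (by omega)
    exact circ_block hs (n := 0) (R := 2 * 4 ^ (k + 1) + 1) (by omega) (by omega) hn hη
  have hc41 : c ^ 4 ≤ 1 := by
    have h1 := circ_prob hc h4 le_rfl (s := 1) le_rfl
    exact h1.trans PT_le_one
  have hlim : Tendsto (fun k : ℕ => (1 - c ^ 4) ^ k) atTop (𝓝 0) :=
    tendsto_pow_atTop_nhds_zero_of_lt_one (by linarith) (by linarith)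
  exact le_antisymm (ge_of_tendsto hlim (Filter.Eventually.of_forall hle)) PT_nonneg

theorem thT_pc_eq_zero : thT pc false = 0 := thT_eq_zero_of_BXP bxp_pc.2

theorem thT_star_eq_zero {q : I} (h : q ≤ σ pc) : thT q true = 0 := by
  have h1 : thT (σ pc) true = 0 := by
    refine thT_eq_zero_of_BXP ?_
    rw [σσ]
    exact bxp_pc.1
  exact le_antisymm (h1 ▸ thT_mono true h) PT_nonneg

theorem thT_star_pos {q : I} (h : σ pc < q) : 0 < thT q true := by
  obtain ⟨c, hc, H⟩ := product_theta_pc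
  have hlt : (1 : ℝ) - pc < q := h
  have hp0 := pc_pos
  have hp1 := pc_lt_one
  have hq1 : (q : ℝ) ≤ 1 := q.2.2
  set x : ℝ := min ((q : ℝ) - (1 - pc)) (1 - pc) with hx
  have hx0 : 0 < x := lt_min (by linarith) (by linarith)
  have hx1 : x ≤ q - (1 - pc) := min_le_left _ _
  have hx2 : x ≤ 1 - pc := min_le_right _ _
  have h1 := H ⟨pc + x, by linarith, by linarith⟩ ⟨1 - pc + x, by linarith, by linarith⟩ x hx0.le
    rfl rfl
  set p₁ : I := ⟨pc + x, by linarith, by linarith⟩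
  set p₂ : I := ⟨1 - pc + x, by linarith, by linarith⟩ with hp₂
  have h2 : thT p₂ true ≤ thT q true := by
    refine thT_mono true ?_
    change (1 - pc + x : ℝ) ≤ q
    linarith
  have h3 : thT p₁ false ≤ 1 := PT_le_one
  have h4 : 0 ≤ thT p₂ true := PT_nonneg
  have h5 : thT p₁ false * thT p₂ true ≤ 1 * thT p₂ true := mul_le_mul_of_nonneg_right h3 h4
  have h6 : 0 < c * x := mul_pos hc hx0
  linarith

/-- The mean cluster size of site percolation. -/
noncomputable def sigmaS (G : (ℤ × ℤ → Bool) → SimpleGraph (ℤ × ℤ)) (p : I) : ℝ≥0∞ :=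
  ∫⁻ ω, (({v | ω (0, 0) = true ∧ (G ω).Reachable (0, 0) v}.encard : ℕ∞) : ℝ≥0∞)
    ∂(Measure.infinitePi (fun _ : ℤ × ℤ => bernoulliMeasure true false p))

theorem product_sigma_pc (G G' : (ℤ × ℤ → Bool) → SimpleGraph (ℤ × ℤ))
    (hG : ∀ ω u v, (G ω).Adj u v ↔ ω u = true ∧ ω v = true ∧ SA false u v)
    (hG' : ∀ ω u v, (G' ω).Adj u v ↔ ω u = true ∧ ω v = true ∧ SA true u v) :
    ∃ c > (0 : ℝ), ∃ δ > (0 : ℝ), ∀ p q : I, ∀ h : ℝ, 0 < h → h ≤ δ → (p : ℝ) = pc - h →
      (q : ℝ) = 1 - pc - h → ENNReal.ofReal (c / h ^ 4) ≤ sigmaS G p * sigmaS G' q := by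
  obtain ⟨c, hc, δ, hδ, H⟩ := product_sigma (p₀ := pc) (r := false) bxp_pc.1 bxp_pc.2
  refine ⟨c, hc, δ, hδ, fun p q h hh hhδ hp hq => ?_⟩
  obtain ⟨n, -, hn⟩ := H p q h hh hhδ hp hq
  have h1 := trunc_le_sigmaT p false G hG (2 * n) (5 * n + 4)
  have h2 := trunc_le_sigmaT q true G' hG' (2 * n) (5 * n + 4)
  have h3 : 0 ≤ tsz p false n := Finset.sum_nonneg fun z _ => PT_nonneg
  calc ENNReal.ofReal (c / h ^ 4) ≤ ENNReal.ofReal (tsz p false n * tsz q (!false) n) :=
        ENNReal.ofReal_le_ofReal hn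
    _ = ENNReal.ofReal (tsz p false n) * ENNReal.ofReal (tsz q true n) := by
        rw [ENNReal.ofReal_mul h3]; rfl
    _ ≤ sigmaS G p * sigmaS G' q := mul_le_mul' h1 h2

end Pool.Agent.H83.Site
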